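import Pool.Agent.Helper4.BT.Defs

/-!
# Block BT-SOB: the Sobolev inequality in dimension six with truncation
-/

set_option autoImplicit false

namespace Pool.Helper4.BT

open MeasureTheory Metric Set Laplacian InnerProductSpace Filter Topology

/-- the derivative of the truncation -/
noncomputable def sobPsi (δ t : ℝ) : ℝ := min 1 (max 0 (|t| / δ - 1))

/-- the truncation -/
noncomputable def sobT (δ s : ℝ) : ℝ := ∫ t in (0 : ℝ)..s, sobPsi δ t

theorem sobPsi_cont (δ : ℝ) : Continuous (sobPsi δ) := by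
  unfold sobPsi; fun_prop

theorem sobPsi_nonneg (δ t : ℝ) : 0 ≤ sobPsi δ t := by
  unfold sobPsi; positivity

theorem sobPsi_le (δ t : ℝ) : sobPsi δ t ≤ 1 := min_le_left _ _

theorem sobPsi_eq_zero {δ t : ℝ} (hδ : 0 < δ) (ht : |t| ≤ δ) : sobPsi δ t = 0 := by
  unfold sobPsi
  have h : |t| / δ - 1 ≤ 0 := by
    rw [sub_nonpos, div_le_one hδ]; exact ht
  rw [max_eq_left h]; simp

theorem sobPsi_eq_one {δ t : ℝ} (hδ : 0 < δ) (ht : 2 * δ ≤ |t|) : sobPsi δ t = 1 := by
  unfold sobPsi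
  have h : 1 ≤ |t| / δ - 1 := by
    rw [le_sub_iff_add_le, le_div_iff₀ hδ]; linarith
  rw [max_eq_right (by linarith), min_eq_left h]

theorem sobT_deriv (δ s : ℝ) : HasDerivAt (sobT δ) (sobPsi δ s) s :=
  intervalIntegral.integral_hasDerivAt_right ((sobPsi_cont δ).intervalIntegrable _ _)
    ((sobPsi_cont δ).stronglyMeasurableAtFilter _ _) (sobPsi_cont δ).continuousAt

theorem sobT_contDiff (δ : ℝ) : ContDiff ℝ 1 (sobT δ) := by
  rw [contDiff_one_iff_deriv]
  refine ⟨fun s => (sobT_deriv δ s).differentiableAt, ?_⟩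
  have : deriv (sobT δ) = sobPsi δ := funext fun s => (sobT_deriv δ s).deriv
  rw [this]; exact sobPsi_cont δ

theorem sobT_abs_le (δ s : ℝ) : |sobT δ s| ≤ |s| := by
  have h := intervalIntegral.norm_integral_le_of_norm_le_const (a := (0 : ℝ)) (b := s)
    (f := sobPsi δ) (C := 1) (fun t _ => by
      rw [Real.norm_eq_abs, abs_of_nonneg (sobPsi_nonneg δ t)]; exact sobPsi_le δ t)
  rw [Real.norm_eq_abs] at h
  simpa [sobT] using h

theorem sobT_eq_zero {δ s : ℝ} (hδ : 0 < δ) (hs : |s| ≤ δ) : sobT δ s = 0 := by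
  unfold sobT
  rw [intervalIntegral.integral_congr (g := fun _ => (0 : ℝ))]
  · simp
  · intro t ht
    apply sobPsi_eq_zero hδ
    refine le_trans ?_ hs
    rw [mem_uIcc] at ht
    rcases ht with ⟨h1, h2⟩ | ⟨h1, h2⟩
    · rw [abs_of_nonneg h1]; exact h2.trans (le_abs_self _)
    · rw [abs_of_nonpos h2]
      calc -t ≤ -s := by linarith
        _ ≤ |s| := neg_le_abs s

theorem sobT_tendsto (s : ℝ) :
    Tendsto (fun n : ℕ => sobT (1 / ((n : ℝ) + 1)) s) atTop (𝓝 s) := by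
  have h : Tendsto (fun n : ℕ => ∫ t in (0 : ℝ)..s, sobPsi (1 / ((n : ℝ) + 1)) t) atTop
      (𝓝 (∫ _ in (0 : ℝ)..s, (1 : ℝ))) := by
    refine intervalIntegral.tendsto_integral_filter_of_dominated_convergence (fun _ => (1 : ℝ))
      (Eventually.of_forall fun n => (sobPsi_cont _).aestronglyMeasurable)
      (Eventually.of_forall fun n => Eventually.of_forall fun t _ => ?_)
      (by simp) ?_
    · rw [Real.norm_eq_abs, abs_of_nonneg (sobPsi_nonneg _ t)]; exact sobPsi_le _ t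
    · have h0 : ∀ᵐ t : ℝ, t ≠ 0 := by
        rw [ae_iff]; simp
      filter_upwards [h0] with t ht _
      apply tendsto_const_nhds.congr'
      have h2 : Tendsto (fun n : ℕ => 2 * (1 / ((n : ℝ) + 1))) atTop (𝓝 (2 * 0)) :=
        tendsto_one_div_add_atTop_nhds_zero_nat.const_mul 2
      rw [mul_zero] at h2
      filter_upwards [h2.eventually (gt_mem_nhds (abs_pos.2 ht))] with n hn
      exact (sobPsi_eq_one (by positivity) hn.le).symm
  simpa [sobT] using h

/-- the Sobolev inequality for smooth functions with compact support -/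
theorem sob_smooth : ∃ C : ℝ, 0 ≤ C ∧ ∀ v : E → ℝ, ContDiff ℝ 1 v → HasCompactSupport v →
    (∫ x, |v x| ^ 3) ^ 2 ≤ C * (∫ x, ‖fderiv ℝ v x‖ ^ 2) ^ 3 := by
  set K : NNReal := eLpNormLESNormFDerivOfEqInnerConst (volume : Measure E) ((2 : NNReal) : ℝ)
    with hK
  refine ⟨(K : ℝ) ^ 6, by positivity, fun v hv hc => ?_⟩
  have hfin : Module.finrank ℝ E = 6 := by simp
  have h := eLpNorm_le_eLpNorm_fderiv_of_eq_inner (volume : Measure E) hv hc (p := 2) (p' := 3)
    (by norm_num) (by rw [hfin]; norm_num) (by rw [hfin]; norm_num)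
  have hv3 : MemLp v 3 volume := hv.continuous.memLp_of_hasCompactSupport hc
  have hd2 : MemLp (fderiv ℝ v) 2 volume :=
    (hv.continuous_fderiv (by norm_num)).memLp_of_hasCompactSupport (hc.fderiv ℝ)
  have e1 : eLpNorm v ((3 : NNReal) : ENNReal) volume =
      ENNReal.ofReal ((∫ x, |v x| ^ 3) ^ ((3 : ℝ)⁻¹)) := by
    have := hv3.eLpNorm_eq_integral_rpow_norm (by norm_num) (by norm_num)
    simpa using this
  have e2 : eLpNorm (fderiv ℝ v) ((2 : NNReal) : ENNReal) volume =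
      ENNReal.ofReal ((∫ x, ‖fderiv ℝ v x‖ ^ 2) ^ ((2 : ℝ)⁻¹)) := by
    have := hd2.eLpNorm_eq_integral_rpow_norm (by norm_num) (by norm_num)
    simpa using this
  rw [e1, e2] at h
  set a : ℝ := ∫ x, |v x| ^ 3 with ha
  set b : ℝ := ∫ x, ‖fderiv ℝ v x‖ ^ 2 with hb
  have ha0 : 0 ≤ a := integral_nonneg fun x => by positivity
  have hb0 : 0 ≤ b := integral_nonneg fun x => by positivity
  have h3 : a ^ ((3 : ℝ)⁻¹) ≤ K * b ^ ((2 : ℝ)⁻¹) := by
    have hh : ENNReal.ofReal (a ^ ((3 : ℝ)⁻¹)) ≤ ENNReal.ofReal (K * b ^ ((2 : ℝ)⁻¹)) := by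
      rw [ENNReal.ofReal_mul K.coe_nonneg, ENNReal.ofReal_coe_nnreal]; exact h
    exact (ENNReal.ofReal_le_ofReal_iff (by positivity)).1 hh
  have h6 := pow_le_pow_left₀ (by positivity) h3 6
  have ea : (a ^ ((3 : ℝ)⁻¹)) ^ 6 = a ^ 2 := by
    rw [← Real.rpow_natCast (a ^ ((3 : ℝ)⁻¹)) 6, ← Real.rpow_mul ha0, ← Real.rpow_natCast a 2]
    norm_num
  have eb : (b ^ ((2 : ℝ)⁻¹)) ^ 6 = b ^ 3 := by
    rw [← Real.rpow_natCast (b ^ ((2 : ℝ)⁻¹)) 6, ← Real.rpow_mul hb0, ← Real.rpow_natCast b 3]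
    norm_num
  rw [mul_pow, ea, eb] at h6
  exact h6

theorem sobolev_L3 : ∃ C : ℝ, 0 < C ∧ ∀ (Ω : Set E) (w : E → ℝ), IsOpen Ω →
    Bornology.IsBounded Ω → Continuous w → (∀ x, x ∉ Ω → w x = 0) → ContDiffOn ℝ 1 w Ω →
    IntegrableOn (fun x => ‖fderiv ℝ w x‖ ^ 2) Ω →
    (∫ x, |w x| ^ 3) ^ 2 ≤ C * (∫ x in Ω, ‖fderiv ℝ w x‖ ^ 2) ^ 3 := by
  obtain ⟨C, hC, hS⟩ := sob_smooth
  refine ⟨C + 1, by linarith, fun Ω w hΩ hb hw h0 hd hi => ?_⟩
  have hcw : HasCompactSupport w :=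
    HasCompactSupport.intro hb.isCompact_closure (fun x hx => h0 x fun h => hx (subset_closure h))
  set v : ℕ → E → ℝ := fun n x => sobT (1 / ((n : ℝ) + 1)) (w x) with hv
  have hδ : ∀ n : ℕ, (0 : ℝ) < 1 / ((n : ℝ) + 1) := fun n => by positivity
  -- locally zero outside of Ω
  have hloc : ∀ n : ℕ, ∀ x, x ∉ Ω → v n =ᶠ[𝓝 x] fun _ => (0 : ℝ) := by
    intro n x hx
    have h1 : ∀ᶠ y in 𝓝 x, |w y| < 1 / ((n : ℝ) + 1) := by
      have : Tendsto (fun y => |w y|) (𝓝 x) (𝓝 |w x|) := (continuous_abs.comp hw).continuousAt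
      rw [h0 x hx, abs_zero] at this
      exact this.eventually (gt_mem_nhds (hδ n))
    filter_upwards [h1] with y hy
    exact sobT_eq_zero (hδ n) hy.le
  have hvd : ∀ n, ContDiff ℝ 1 (v n) := by
    intro n
    rw [contDiff_iff_contDiffAt]
    intro x
    by_cases hx : x ∈ Ω
    · exact (sobT_contDiff _).contDiffAt.comp x (hd.contDiffAt (hΩ.mem_nhds hx))
    · exact (contDiffAt_const (c := (0 : ℝ))).congr_of_eventuallyEq (hloc n x hx)
  have hvc : ∀ n, HasCompactSupport (v n) := fun n =>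
    HasCompactSupport.intro hb.isCompact_closure
      (fun x hx => (hloc n x fun h => hx (subset_closure h)).self_of_nhds)
  have hfd : ∀ n x, x ∈ Ω → ‖fderiv ℝ (v n) x‖ ≤ ‖fderiv ℝ w x‖ := by
    intro n x hx
    have hwd : HasFDerivAt w (fderiv ℝ w x) x :=
      ((hd.contDiffAt (hΩ.mem_nhds hx)).differentiableAt (by norm_num)).hasFDerivAt
    have := (sobT_deriv (1 / ((n : ℝ) + 1)) (w x)).comp_hasFDerivAt x hwd
    have e : fderiv ℝ (v n) x = sobPsi (1 / ((n : ℝ) + 1)) (w x) • fderiv ℝ w x := this.fderiv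
    rw [e, norm_smul, Real.norm_eq_abs, abs_of_nonneg (sobPsi_nonneg _ _)]
    exact mul_le_of_le_one_left (norm_nonneg _) (sobPsi_le _ _)
  have hfz : ∀ n x, x ∉ Ω → fderiv ℝ (v n) x = 0 := by
    intro n x hx
    rw [(hloc n x hx).fderiv_eq]
    simp
  set b : ℝ := ∫ x in Ω, ‖fderiv ℝ w x‖ ^ 2 with hbdef
  have hb0 : 0 ≤ b := integral_nonneg fun x => by positivity
  have hle : ∀ n, ∫ x, ‖fderiv ℝ (v n) x‖ ^ 2 ≤ b := by
    intro n
    rw [← setIntegral_eq_integral_of_forall_compl_eq_zero (s := Ω)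
      (fun x hx => by rw [hfz n x hx]; simp)]
    refine setIntegral_mono_on ?_ hi hΩ.measurableSet (fun x hx => ?_)
    · refine Integrable.integrableOn ?_
      have hcc : Continuous (fun x => ‖fderiv ℝ (v n) x‖ ^ 2) :=
        (((hvd n).continuous_fderiv (by norm_num)).norm).pow 2
      refine hcc.integrable_of_hasCompactSupport ?_
      exact HasCompactSupport.intro hb.isCompact_closure (fun x hx => by
          rw [hfz n x fun h => hx (subset_closure h)]; simp)
    · exact pow_le_pow_left₀ (norm_nonneg _) (hfd n x hx) 2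
  have hlim : Tendsto (fun n => ∫ x, |v n x| ^ 3) atTop (𝓝 (∫ x, |w x| ^ 3)) := by
    refine tendsto_integral_of_dominated_convergence (fun x => |w x| ^ 3)
      (fun n => ((continuous_abs.comp (hvd n).continuous).pow 3).aestronglyMeasurable) ?_ ?_ ?_
    · have hc3 : HasCompactSupport (fun x => |w x| ^ 3) :=
        HasCompactSupport.intro hb.isCompact_closure (fun x hx => by
          rw [h0 x fun h => hx (subset_closure h)]; simp)
      have hcont : Continuous (fun x => |w x| ^ 3) := (continuous_abs.comp hw).pow 3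
      exact hcont.integrable_of_hasCompactSupport hc3
    · intro n
      refine Eventually.of_forall fun x => ?_
      rw [Real.norm_eq_abs, abs_of_nonneg (by positivity)]
      exact pow_le_pow_left₀ (abs_nonneg _) (sobT_abs_le _ _) 3
    · refine Eventually.of_forall fun x => ?_
      have h1 := sobT_tendsto (w x)
      exact (h1.abs).pow 3
  have hlim2 := hlim.pow 2
  refine le_of_tendsto hlim2 (Eventually.of_forall fun n => ?_)
  refine (hS (v n) (hvd n) (hvc n)).trans ?_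
  have h1 : (∫ x, ‖fderiv ℝ (v n) x‖ ^ 2) ^ 3 ≤ b ^ 3 :=
    pow_le_pow_left₀ (integral_nonneg fun x => by positivity) (hle n) 3
  calc C * (∫ x, ‖fderiv ℝ (v n) x‖ ^ 2) ^ 3 ≤ C * b ^ 3 := mul_le_mul_of_nonneg_left h1 hC
    _ ≤ (C + 1) * b ^ 3 := by nlinarith [pow_nonneg hb0 3]

end Pool.Helper4.BT
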